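import Pool.Agent.TH131.GHC.Final
import Pool.Agent.TH504.CB.Red4

/-!
# Transfer of the relative generalized Hodge conjecture to direct factors up to isogeny
-/

set_option autoImplicit false
set_option linter.unusedSectionVars false

namespace Pool.Agent.H44T.GP

open Matrix Module Pool.Agent.H204R3.CM Pool.Agent.W437.HC Pool.Agent.W437.HD Pool.Agent.W437.HP
  Pool.Agent.TH131.GHC Pool.Agent.W546.GHC

noncomputable section

/-- alternating maps are determined by their values on a generating set -/
theorem alt_ext {T M : Type*} [AddCommGroup T] [Module ℝ T] [AddCommGroup M] [Module ℝ M] {k : ℕ}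
    (f g : T [⋀^Fin k]→ₗ[ℝ] M) {s : Set T} (hs : Submodule.span ℝ s = ⊤)
    (h : ∀ u : Fin k → T, (∀ l, u l ∈ s) → f u = g u) : f = g := by
  classical
  have key : ∀ A : Finset (Fin k), ∀ u : Fin k → T, (∀ l, l ∉ A → u l ∈ s) → f u = g u := by
    intro A
    induction A using Finset.induction_on with
    | empty => exact fun u hu => h u fun l => hu l (Finset.notMem_empty l)
    | insert a A ha ih =>
      intro u hu
      have h1 : ∀ x : T, x ∈ Submodule.span ℝ s →
          f (Function.update u a x) = g (Function.update u a x) := by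
        intro x hx
        induction hx using Submodule.span_induction with
        | mem x hx =>
          refine ih _ fun l hl => ?_
          by_cases hla : l = a
          · subst hla
            rwa [Function.update_self]
          · rw [Function.update_of_ne hla]
            exact hu l fun hl' => (Finset.mem_insert.1 hl').elim hla hl
        | zero => rw [f.map_update_zero, g.map_update_zero]
        | add x y _ _ hx hy => rw [f.map_update_add, g.map_update_add, hx, hy]
        | smul r x _ hx => rw [f.map_update_smul, g.map_update_smul, hx]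
      have h2 := h1 (u a) (by rw [hs]; trivial)
      rwa [Function.update_eq_self] at h2
  ext u
  exact key Finset.univ u fun l hl => absurd (Finset.mem_univ l) hl

section fam

variable {ι : Type} {g : ι → ℕ} (Y : ∀ i, Matrix (Fin (g i)) (Fin (g i)) ℂ)

/-- the lattice of a product of abelian varieties spans the tangent space -/
theorem span_perFam (hU : ∀ i, IsUnit (imM (Y i)).det) {n : ℕ} (c : Fin n → ι) :
    Submodule.span ℝ (Set.range (perFam Y c)) = ⊤ := by
  rw [Submodule.eq_top_iff']
  intro u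
  have h1 : u = ∑ j, Pi.single j (u j) := (Finset.univ_sum_single u).symm
  rw [h1]
  refine Submodule.sum_mem _ fun j _ => ?_
  have h2 : u j = perR (Y (c j)) (invR (Y (c j)) (u j)) := (perR_invR (hU _) _).symm
  rw [h2]
  obtain ⟨x, hx⟩ : ∃ x, x = invR (Y (c j)) (u j) := ⟨_, rfl⟩
  rw [← hx]
  have h3 : x = ∑ b, x b • (Pi.single b 1 : Fin (g (c j)) ⊕ Fin (g (c j)) → ℝ) := by
    funext b
    simp [Finset.sum_apply, Pi.single_apply]
  have h4 : (Pi.single j (perR (Y (c j)) x) : ∀ j, Fin (g (c j)) → ℂ) =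
      ∑ b, x b • (Pi.single j (perR (Y (c j)) (Pi.single b 1)) : ∀ j, Fin (g (c j)) → ℂ) := by
    conv_lhs => rw [h3, map_sum]
    have h5 : ∀ s : Finset (Fin (g (c j)) ⊕ Fin (g (c j))),
        (Pi.single j (∑ b ∈ s, perR (Y (c j)) (x b • Pi.single b 1)) : ∀ j, Fin (g (c j)) → ℂ) =
        ∑ b ∈ s, x b • (Pi.single j (perR (Y (c j)) (Pi.single b 1)) :
          ∀ j, Fin (g (c j)) → ℂ) := by
      intro s
      induction s using Finset.induction_on with
      | empty => simp
      | insert a s ha ih =>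
        rw [Finset.sum_insert ha, Finset.sum_insert ha, Pi.single_add, ih, map_smul]
        congr 1
        exact Pi.single_smul j (x a) _
    exact h5 _
  rw [h4]
  refine Submodule.sum_mem _ fun b _ => Submodule.smul_mem _ _ (Submodule.subset_span ?_)
  refine ⟨Pi.single j (Pi.single b 1), ?_⟩
  funext i
  rw [perFam_apply]
  by_cases hij : i = j
  · subst hij
    rw [Pi.single_eq_same, Pi.single_eq_same, perOne_eq]
    congr 1
    funext a
    by_cases hab : a = b
    · subst hab
      simp [Pi.single_apply]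
    · simp [Pi.single_apply, hab]
  · rw [Pi.single_eq_of_ne hij, Pi.single_eq_of_ne hij, map_zero]

end fam

section trf

variable {W T W' T' : Type*} [AddCommGroup W] [Module ℚ W] [AddCommGroup T] [Module ℂ T]
  [AddCommGroup W'] [Module ℚ W'] [AddCommGroup T'] [Module ℂ T'] {per : W →+ T} {per' : W' →+ T'}
  {v : ℕ}

/-- pull-back of rational classes -/
def pbQ (Φ : W' →ₗ[ℚ] W) : HAZ W v →ₗ[ℚ] HAZ W' v :=
  LinearMap.pi fun k =>
    { toFun := fun t => (t k).compLinearMap Φ
      map_add' := fun _ _ => rfl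
      map_smul' := fun _ _ => rfl }

/-- pull-back of complex classes -/
def pbC (Ψ : T' →ₗ[ℂ] T) : HAZC T v →ₗ[ℂ] HAZC T' v :=
  LinearMap.pi fun k =>
    { toFun := fun t => (t k).compLinearMap (Ψ.restrictScalars ℝ)
      map_add' := fun _ _ => rfl
      map_smul' := fun _ _ => rfl }

theorem pbQ_apply (Φ : W' →ₗ[ℚ] W) (t : HAZ W v) (k : ℕ) (w : Fin k → W') :
    pbQ Φ t k w = t k fun l => Φ (w l) := rfl

theorem pbC_apply (Ψ : T' →ₗ[ℂ] T) (t : HAZC T v) (k : ℕ) (u : Fin k → T') :
    pbC Ψ t k u = t k fun l => Ψ (u l) := rfl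

theorem extends_pb {Φ : W' →ₗ[ℚ] W} {Ψ : T' →ₗ[ℂ] T} (h : ∀ w, Ψ (per' w) = per (Φ w))
    {t : HAZ W v} {F : HAZC T v} (hF : Extends per t F) : Extends per' (pbQ Φ t) (pbC Ψ F) := by
  intro k w
  rw [pbC_apply, pbQ_apply, ← hF k]
  congr 1
  funext l
  exact h (w l)

theorem hasType_pb (V : Coh v) {Ψ : T' →ₗ[ℂ] T} {n : ℤ} {F : HAZC T v} (hF : HasType V n F) :
    HasType V n (pbC Ψ F) := by
  intro k u
  have h1 := hF k fun l => Ψ (u l)
  rw [pbC_apply, ← h1]
  congr 2
  refine Finset.sum_congr rfl fun l _ => ?_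
  rw [pbC_apply]
  congr 1
  funext a
  by_cases hal : a = l
  · subst hal
    rw [Function.update_self, Function.update_self, map_smul]
  · rw [Function.update_of_ne hal, Function.update_of_ne hal]

/-- products of divisor classes and arbitrary classes pull back -/
theorem divisorProducts_comp (Φ : W' →ₗ[ℚ] W) (Ψ : T' →ₗ[ℂ] T) (h : ∀ w, Ψ (per' w) = per (Φ w))
    {i j : ℕ} {f : W [⋀^Fin i]→ₗ[ℚ] ℚ} (hf : f ∈ divisorProducts per i j) :
    f.compLinearMap Φ ∈ divisorProducts per' i j := by
  obtain ⟨k, e, B, η, hB, hx⟩ := hf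
  refine ⟨k, e, fun s => (B s).compLinearMap Φ, η.compLinearMap Φ,
    fun s => Pool.Agent.TH504.CB.isHodge_comp Φ Ψ h (hB s), fun w => ?_⟩
  rw [AlternatingMap.compLinearMap_apply]
  refine (hx _).trans (Finset.sum_congr rfl fun σ _ => ?_)
  congr 1
  congr 1
  refine Finset.prod_congr rfl fun s _ => ?_
  rw [AlternatingMap.compLinearMap_apply]
  congr 1
  funext a
  fin_cases a <;> rfl

theorem cross_pb (Φ : W' →ₗ[ℚ] W) {k : ℕ} (f : W [⋀^Fin k]→ₗ[ℚ] ℚ) (x : Fin v → ℚ) :
    pbQ Φ (cross f x) = cross (f.compLinearMap Φ) x := by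
  funext m
  by_cases hm : m = k
  · subst hm
    ext w
    rw [pbQ_apply]
    unfold cross
    rw [Pi.single_eq_same, Pi.single_eq_same]
    rfl
  · ext w
    rw [pbQ_apply]
    unfold cross
    rw [Pi.single_eq_of_ne hm, Pi.single_eq_of_ne hm]
    rfl

theorem divConiveau_pb (Φ : W' →ₗ[ℚ] W) (Ψ : T' →ₗ[ℂ] T) (h : ∀ w, Ψ (per' w) = per (Φ w))
    (N : ℕ → Submodule ℚ (Fin v → ℚ)) (j : ℕ) {t : HAZ W v} (ht : t ∈ divConiveau per N j) :
    pbQ Φ t ∈ divConiveau per' N j := by
  have h1 : divConiveau per N j ≤ (divConiveau per' N j).comap (pbQ Φ) := by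
    refine Submodule.span_le.2 ?_
    rintro _ ⟨k, r, j', f, x, hf, hx, hj, rfl⟩
    change pbQ Φ (cross f x) ∈ divConiveau per' N j
    rw [cross_pb]
    exact Submodule.subset_span ⟨k, r, j', _, x, divisorProducts_comp Φ Ψ h hf, hx, hj, rfl⟩
  exact h1 ht

/-- **Transfer.** The relative generalized Hodge conjecture for a complex torus implies it for its
direct factors up to isogeny. -/
theorem transfer (pr : W' →ₗ[ℚ] W) (prT : T' →ₗ[ℂ] T) (em : W →ₗ[ℚ] W') (emT : T →ₗ[ℂ] T')
    (hto : ∀ w, prT (per' w) = per (pr w)) (hof : ∀ w, emT (per w) = per' (em w))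
    (hid : ∀ w, pr (em w) = w) (hspan : Submodule.span ℝ (Set.range per') = ⊤)
    (hext : ∀ t : HAZ W' v, ∃ F : HAZC T' v, Extends per' t F) (V : Coh v)
    (N : ℕ → Submodule ℚ (Fin v → ℚ)) (h : GHCProduct per' V N) : GHCProduct per V N := by
  -- every class extends
  have hext' : ∀ t : HAZ W v, ∃ F : HAZC T v, Extends per t F := by
    intro t
    obtain ⟨F, hF⟩ := hext (pbQ pr t)
    refine ⟨pbC emT F, ?_⟩
    have h1 := extends_pb hof hF
    have h2 : pbQ em (pbQ pr t) = t := by
      funext k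
      ext w
      rw [pbQ_apply, pbQ_apply]
      simp only [hid]
    rwa [h2] at h1
  -- extensions are unique
  have huniq : ∀ (t : HAZ W' v) (F G : HAZC T' v), Extends per' t F → Extends per' t G →
      F = G := by
    intro t F G hF hG
    funext k
    refine alt_ext (F k) (G k) hspan fun u hu => ?_
    choose w hw using hu
    have h1 : u = fun l => per' (w l) := funext fun l => (hw l).symm
    rw [h1, hF k w, hG k w]
  intro i j S hS
  have hS' : SubHSIn per' V i j (S.map (pbQ pr)) := by
    refine ⟨?_, ?_⟩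
    · rintro _ ⟨t, ht, rfl⟩ k w b hb
      exact hS.1 t ht k _ b hb
    · have hmem : ∀ F ∈ cplx per S, pbC prT F ∈ cplx per' (S.map (pbQ pr)) := by
        intro F hF
        have h1 : cplx per S ≤ (cplx per' (S.map (pbQ pr))).comap (pbC prT) := by
          refine Submodule.span_le.2 ?_
          rintro F ⟨t, ht, hF⟩
          exact Submodule.subset_span ⟨_, Submodule.mem_map_of_mem ht, extends_pb hto hF⟩
        exact h1 hF
      refine Submodule.span_le.2 ?_
      rintro G ⟨_, ⟨t, ht, rfl⟩, hG⟩
      obtain ⟨F, hF⟩ := hext' t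
      have h1 : G = pbC prT F := huniq _ _ _ hG (extends_pb hto hF)
      rw [h1]
      have h2 := hS.2 (Submodule.subset_span ⟨t, ht, hF⟩ : F ∈ cplx per S)
      have h3 := Submodule.mem_map_of_mem (f := (pbC prT : HAZC T v →ₗ[ℂ] HAZC T' v)) h2
      rw [Submodule.map_span] at h3
      refine Submodule.span_mono ?_ h3
      rintro _ ⟨K, ⟨hK, n, hn, hKn⟩, rfl⟩
      exact ⟨hmem K hK, n, hn, hasType_pb V hKn⟩
  intro t ht
  have h1 := h i j _ hS' (Submodule.mem_map_of_mem ht)
  have h2 := divConiveau_pb em emT hof N j h1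
  have h3 : pbQ em (pbQ pr t) = t := by
    funext k
    ext w
    rw [pbQ_apply, pbQ_apply]
    simp only [hid]
  rwa [h3] at h2

end trf

end

end Pool.Agent.H44T.GP
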