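import Pool.Agent.TH504.CB.Trans
import Pool.Agent.TH504.CB.Red4
import Pool.Agent.TH504.CB.Indep
import Pool.Agent.H44T.GP.Trf

/-!
# Derivations which move one factor and fix the small part
-/

set_option autoImplicit false
set_option linter.unusedSectionVars false

namespace Pool.Agent.H44T.GP

open Matrix Module Pool.Agent.W437.HC Pool.Agent.W437.HD Pool.Agent.W437.HP Pool.Agent.W548.Odd
  Pool.Agent.W437.HR Pool.Agent.W437.HQ Pool.Agent.H204R3.CM Pool.Agent.TH504.VL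
  Pool.Agent.TH504.VY Pool.Agent.TH131.GHC Pool.Agent.TH125 Pool.Agent.TH504.CB

noncomputable section

variable {ι : Type} [Fintype ι] [DecidableEq ι] {g : ι → ℕ}
  {Z : ∀ i, Matrix (Fin (g i)) (Fin (g i)) ℂ}

/-- Abelian varieties with many derivations: the factors which are not in the small part are moved by
derivations which fix the small part. -/
theorem main_der' (hZ : ∀ i, (Z i)ᵀ = Z i) (hpos : ∀ i, (imM (Z i)).PosDef)
    (hs : ∀ i, IsSimpleAV (Z i)) {S : Type} [Fintype S] (δ : S → Derivation ℚ ℂ ℂ)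
    (hinj : Function.Injective (LinearMap.pi fun i => derL Z δ i)) :
    ∃ R : Finset ι, (∀ ρ : ℕ, (∑ i, g i) ^ 2 < 4 * Fintype.card S →
        (ρ + 1) ^ 2 + 2 * (∑ i, g i - ρ - 1) * (∑ i, g i - ρ) < 4 * Fintype.card S →
        ∑ i ∈ R, g i ≤ ρ) ∧
      ∀ i, i ∉ R → HasPcs (DZ (Z i)) ∧
        ∃ u, (∀ j ∈ R, derL Z δ j u = 0) ∧ derL Z δ i u ≠ 0 := by
  classical
  have hWA : ∀ i, LinearMap.range (derL Z δ i) ≤ WA (Z i) := by
    rintro i _ ⟨c, rfl⟩
    rw [derL_apply]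
    exact Submodule.sum_mem _ fun a _ => Submodule.smul_mem _ _ (der_mem (hZ i) (hpos i) (δ a))
  have hrank : Fintype.card S ≤
      finrank ℂ (LinearMap.range (LinearMap.pi fun i => derL Z δ i)) := by
    rw [LinearMap.finrank_range_of_inj hinj, Module.finrank_fintype_fun_eq_card]
  let Mv : ι → Prop := fun i => RealCentre (Z i) ∧
    (g i - 1) ^ 2 < 8 * finrank ℂ (LinearMap.range (derL Z δ i))
  let R : Finset ι := Finset.univ.filter fun i => Rt (fun i => derL Z δ i) Mv i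
  have hR : ∀ i, i ∈ R ↔ Rt (fun i => derL Z δ i) Mv i := fun i => by simp [R]
  have hpcs : ∀ i, Mv i → HasPcs (DZ (Z i)) := by
      rintro i ⟨hr, hd⟩
      refine hasPcs_of_real (hZ i) (hpos i) (hs i) ?_ hr
      have h1 : finrank ℂ (LinearMap.range (derL Z δ i)) ≤ finrank ℂ (WA (Z i)) :=
        Submodule.finrank_mono (hWA i)
      have h3 := sym_bound (LinearMap.range (derL Z δ i)) (by
        rintro _ ⟨u, rfl⟩
        exact (hWA i ⟨u, rfl⟩).1)
      rw [Fintype.card_fin] at h3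
      have h4 : g i ≠ 0 := by
        intro h
        have h5 : g i * (g i + 1) = 0 := Nat.mul_eq_zero.2 (Or.inl h)
        omega
      have h2 : g i ^ 2 + 1 ≤ (g i - 1) ^ 2 + 2 * g i := by
        obtain ⟨a, ha⟩ : ∃ a, g i = a + 1 := ⟨g i - 1, by omega⟩
        rw [ha, Nat.add_sub_cancel]
        exact le_of_eq (by ring)
      omega
  refine ⟨R, fun ρ h1 h2 => ?_, fun i hi => ?_⟩
  · have h3 := bound_pt (L := fun i => derL Z δ i) (Mv := Mv) (w := fun _ => 1) (D := Fintype.card S)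
      (ρ := ρ) (R := R) (fun i u => (hWA i ⟨u, rfl⟩).1)
      (fun i hi => few_pt (hZ i) (hpos i) (hs i) (hWA i) hi) hrank (fun _ => le_rfl)
      (by simpa using h1) (by simpa using h2) hR
    simpa using h3
  · rw [hR] at hi
    unfold Rt at hi
    push Not at hi
    obtain ⟨u, hu, hne⟩ := hi
    refine ⟨hpcs i ?_, u, fun j hj => ((hR j).1 hj) u hu, hne⟩
    by_contra hM
    exact hne (hu i hM)

/-- a derivation which kills a field and some numbers kills the field which they generate -/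
theorem der_adjoinK {K : Subfield ℂ} {S : Set ℂ} (δ : Derivation ℚ ℂ ℂ) (hK : ∀ x : K, δ x = 0)
    (h : ∀ x ∈ S, δ x = 0) {x : ℂ} (hx : x ∈ IntermediateField.adjoin K S) : δ x = 0 := by
  induction hx using IntermediateField.adjoin_induction with
  | mem x hx => exact h x hx
  | algebraMap x => exact hK x
  | add x y _ _ hx hy => rw [map_add, hx, hy, add_zero]
  | inv x _ hx => rw [Derivation.leibniz_inv, hx, smul_zero]
  | mul x y _ _ hx hy => rw [Derivation.leibniz, hx, hy, smul_zero, smul_zero, add_zero]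

/-- combinations of derivations -/
def comb {S : Type} [Fintype S] (δ : S → Derivation ℚ ℂ ℂ) (c : S → ℂ) : Derivation ℚ ℂ ℂ :=
  ∑ a, c a • δ a

theorem comb_apply {S : Type} [Fintype S] [DecidableEq S] (δ : S → Derivation ℚ ℂ ℂ) (c : S → ℂ)
    (x : ℂ) : comb δ c x = ∑ a, c a * δ a x := by
  have h1 : ∀ s : Finset S, (∑ a ∈ s, c a • δ a) x = ∑ a ∈ s, c a * δ a x := by
    intro s
    induction s using Finset.induction_on with
    | empty => simp
    | insert a s ha ih =>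
      rw [Finset.sum_insert ha, Finset.sum_insert ha, Derivation.add_apply, ih]
      rfl
  exact h1 _

theorem comb_map {S : Type} [Fintype S] [DecidableEq S] (δ : S → Derivation ℚ ℂ ℂ) (c : S → ℂ)
    (i : ι) : (Z i).map (comb δ c) = derL Z δ i c := by
  rw [derL_apply]
  ext a b
  rw [Matrix.map_apply, comb_apply, Matrix.sum_apply]
  rfl

section power

variable {g0 : ℕ} {Z0 : Matrix (Fin g0) (Fin g0) ℂ}
  (Y : ∀ i, Matrix (Fin (g i)) (Fin (g i)) ℂ)
  (E : ∀ i, Matrix (Fin g0 ⊕ Fin g0) (Fin (g i) ⊕ Fin (g i)) ℚ)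
  (F : ∀ i, Matrix (Fin (g i) ⊕ Fin (g i)) (Fin g0 ⊕ Fin g0) ℚ) (n : ℕ)

/-- the factors of the power -/
def fac (ι : Type) [Fintype ι] (n : ℕ) (l : Fin (Fintype.card (Fin n × ι))) : Fin n × ι :=
  (Fintype.equivFin (Fin n × ι)).symm l

/-- from the product to the power -/
def toPow : (∀ l, Fin (g (fac ι n l).2) ⊕ Fin (g (fac ι n l).2) → ℚ) →ₗ[ℚ]
    (Fin n → Fin g0 ⊕ Fin g0 → ℚ) :=
  LinearMap.pi fun j => ∑ l, if (fac ι n l).1 = j then
    (mulVecLin (E (fac ι n l).2)) ∘ₗ LinearMap.proj l else 0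

/-- from the power to the product -/
def ofPow : (Fin n → Fin g0 ⊕ Fin g0 → ℚ) →ₗ[ℚ]
    (∀ l, Fin (g (fac ι n l).2) ⊕ Fin (g (fac ι n l).2) → ℚ) :=
  LinearMap.pi fun l => (mulVecLin (F (fac ι n l).2)) ∘ₗ LinearMap.proj (fac ι n l).1

/-- from the product to the power, tangent spaces -/
def toPowT (Z0 : Matrix (Fin g0) (Fin g0) ℂ) : (∀ l, Fin (g (fac ι n l).2) → ℂ) →ₗ[ℂ]
    (Fin n → Fin g0 → ℂ) :=
  LinearMap.pi fun j => ∑ l, if (fac ι n l).1 = j then
    (mulVecLin (TM Z0 (E (fac ι n l).2))) ∘ₗ LinearMap.proj l else 0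

/-- from the power to the product, tangent spaces -/
def ofPowT : (Fin n → Fin g0 → ℂ) →ₗ[ℂ] (∀ l, Fin (g (fac ι n l).2) → ℂ) :=
  LinearMap.pi fun l => (mulVecLin (TM (Y (fac ι n l).2) (F (fac ι n l).2))) ∘ₗ
    LinearMap.proj (fac ι n l).1

theorem toPow_apply (w : ∀ l, Fin (g (fac ι n l).2) ⊕ Fin (g (fac ι n l).2) → ℚ) (j : Fin n) :
    toPow E n w j = ∑ l, if (fac ι n l).1 = j then E (fac ι n l).2 *ᵥ w l else 0 := by
  unfold toPow
  rw [LinearMap.pi_apply, LinearMap.sum_apply]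
  refine Finset.sum_congr rfl fun l _ => ?_
  split_ifs <;> rfl

theorem toPowT_apply (w : ∀ l, Fin (g (fac ι n l).2) → ℂ) (j : Fin n) :
    toPowT E n Z0 w j = ∑ l, if (fac ι n l).1 = j then TM Z0 (E (fac ι n l).2) *ᵥ w l else 0 := by
  unfold toPowT
  rw [LinearMap.pi_apply, LinearMap.sum_apply]
  refine Finset.sum_congr rfl fun l _ => ?_
  split_ifs <;> rfl

theorem to_of (htot : ∑ i, E i * F i = 1) (w : Fin n → Fin g0 ⊕ Fin g0 → ℚ) :
    toPow E n (ofPow F n w) = w := by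
  funext j
  rw [toPow_apply]
  have h1 : ∀ l, (if (fac ι n l).1 = j then E (fac ι n l).2 *ᵥ ofPow F n w l else 0) =
      (fun q : Fin n × ι => if q.1 = j then (E q.2 * F q.2) *ᵥ w q.1 else 0)
        ((Fintype.equivFin (Fin n × ι)).symm l) := by
    intro l
    simp only
    change _ = if (fac ι n l).1 = j then (E (fac ι n l).2 * F (fac ι n l).2) *ᵥ w (fac ι n l).1
      else 0
    split_ifs
    · rw [← mulVec_mulVec]
      rfl
    · rfl
  rw [Finset.sum_congr rfl fun l _ => h1 l,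
    Equiv.sum_comp (Fintype.equivFin (Fin n × ι)).symm
      (fun q : Fin n × ι => if q.1 = j then (E q.2 * F q.2) *ᵥ w q.1 else 0),
    Fintype.sum_prod_type, Finset.sum_eq_single j]
  · simp only [if_true]
    have h2 : ∀ s : Finset ι, ∑ i ∈ s, (E i * F i) *ᵥ w j = (∑ i ∈ s, E i * F i) *ᵥ w j := by
      intro s
      induction s using Finset.induction_on with
      | empty => simp
      | insert a s ha ih => rw [Finset.sum_insert ha, Finset.sum_insert ha, ih, add_mulVec]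
    rw [h2, htot, one_mulVec]
  · intro i _ hi
    simp only [if_neg hi, Finset.sum_const_zero]
  · intro h
    exact absurd (Finset.mem_univ j) h

theorem per_to (hU : IsUnit (imM Z0).det) (hUY : ∀ i, IsUnit (imM (Y i)).det)
    (hJ : ∀ i, JR Z0 * cK ℝ (E i) = cK ℝ (E i) * JR (Y i))
    (w : ∀ l, Fin (g (fac ι n l).2) ⊕ Fin (g (fac ι n l).2) → ℚ) :
    toPowT E n Z0 (perFam Y (fun l => (fac ι n l).2) w) = perPow Z0 n (toPow E n w) := by
  funext j
  have h1 : perPow Z0 n (toPow E n w) j = perOne Z0 (toPow E n w j) := rfl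
  rw [h1, toPow_apply, toPowT_apply, map_sum]
  refine Finset.sum_congr rfl fun l _ => ?_
  split_ifs
  · rw [TM_perOne (hUY _) hU (hJ _).symm]
    rfl
  · rw [map_zero]

theorem per_of (hU : IsUnit (imM Z0).det) (hUY : ∀ i, IsUnit (imM (Y i)).det)
    (hJF : ∀ i, cK ℝ (F i) * JR Z0 = JR (Y i) * cK ℝ (F i))
    (w : Fin n → Fin g0 ⊕ Fin g0 → ℚ) :
    ofPowT Y F n (perPow Z0 n w) = perFam Y (fun l => (fac ι n l).2) (ofPow F n w) := by
  funext l
  exact (TM_perOne hU (hUY _) (hJF _) (w (fac ι n l).1)).symm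

/-- the relative generalized Hodge conjecture for products of the factors implies it for powers -/
theorem ghc_pow (hpos0 : (imM Z0).PosDef) (hpos : ∀ i, (imM (Y i)).PosDef)
    (htot : ∑ i, E i * F i = 1) (hJ : ∀ i, JR Z0 * cK ℝ (E i) = cK ℝ (E i) * JR (Y i))
    (hJF : ∀ i, cK ℝ (F i) * JR Z0 = JR (Y i) * cK ℝ (F i)) {v : ℕ} (V : Coh v)
    (N : ℕ → Submodule ℚ (Fin v → ℚ))
    (h : ∀ (m : ℕ) (c : Fin m → ι), GHCProduct (perFam Y c) V N) :
    GHCProduct (perPow Z0 n) V N := by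
  have hU : IsUnit (imM Z0).det := hpos0.isUnit.map Matrix.detMonoidHom
  have hUY : ∀ i, IsUnit (imM (Y i)).det := fun i => (hpos i).isUnit.map Matrix.detMonoidHom
  exact transfer (toPow E n) (toPowT E n Z0) (ofPow F n) (ofPowT Y F n)
    (per_to Y E n hU hUY hJ) (per_of Y F n hU hUY hJF) (to_of E F n htot)
    (span_perFam Y hUY _) (fun t => (frameOf Y hpos _).exists_extC t) V N (h _ _)

end power

/-- the relative generalized Hodge conjecture from derivations -/
theorem ghc_der {Y : ∀ i, Matrix (Fin (g i)) (Fin (g i)) ℂ} (hY : ∀ i, (Y i)ᵀ = Y i)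
    (hpos : ∀ i, (imM (Y i)).PosDef) (hp : ∀ i, HasPcs (DZ (Y i)))
    (hs : ∀ i, IsSimpleAV (Y i)) {v : ℕ} (V : Coh v)
    (hder : ∀ i, ∃ δ : Derivation ℚ ℂ ℂ, V.z.map δ = 0 ∧ (Y i).map δ ≠ 0)
    {N : ℕ → Submodule ℚ (Fin v → ℚ)} (hN : GHCZ V N) (m : ℕ) (c : Fin m → ι) :
    GHCProduct (perFam Y c) V N :=
  ghc_rel Y hY hpos hp c V (indep_of_der hY hpos hp hs V hder) hN

end

end Pool.Agent.H44T.GP
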